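import Pool.Agent.Helper807.KO.Defs

/-!
# One-dimensional Konane: a verified checker

Positions are coded by numbers: the bit `i` stands for the cell `i - 8`.
-/

set_option autoImplicit false

namespace Pool.Agent.Helper807.KO

open Gm

/-! ## The game `A - (B + C)` -/

/-- the game `A - (B + C)` -/
noncomputable def diff (A B C : Finset ℤ) : Gm := add (value A) (neg (add (value B) (value C)))

theorem value_eq (P : Finset ℤ) : value P =
    Gm.mk {Q : Finset ℤ // LeftMove P Q} {Q : Finset ℤ // RightMove P Q}
      (fun Q => value Q.1) (fun Q => value Q.1) := by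
  rw [value]

theorem diff_eq (A B C : Finset ℤ) : diff A B C =
    Gm.mk ({Q : Finset ℤ // LeftMove A Q} ⊕
        ({Q : Finset ℤ // RightMove B Q} ⊕ {Q : Finset ℤ // RightMove C Q}))
      ({Q : Finset ℤ // RightMove A Q} ⊕
        ({Q : Finset ℤ // LeftMove B Q} ⊕ {Q : Finset ℤ // LeftMove C Q}))
      (Sum.elim (fun Q => diff Q.1 B C) (fun c => Sum.elim (fun Q => diff A Q.1 C)
        (fun Q => diff A B Q.1) c))
      (Sum.elim (fun Q => diff Q.1 B C) (fun c => Sum.elim (fun Q => diff A Q.1 C)
        (fun Q => diff A B Q.1) c)) := by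
  have hA := value_eq A
  have hB := value_eq B
  have hC := value_eq C
  unfold diff
  generalize value A = gA at hA ⊢
  generalize value B = gB at hB ⊢
  generalize value C = gC at hC ⊢
  subst hA hB hC
  rw [add_mk]
  simp only [neg]
  rw [add_mk]
  congr 1
  · funext x
    rcases x with x | x | x <;> rfl
  · funext x
    rcases x with x | x | x <;> rfl

theorem wins1_diff (A B C : Finset ℤ) : (wins (diff A B C)).1 ↔
    (∃ A', LeftMove A A' ∧ ¬ (wins (diff A' B C)).2) ∨
    (∃ B', RightMove B B' ∧ ¬ (wins (diff A B' C)).2) ∨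
    (∃ C', RightMove C C' ∧ ¬ (wins (diff A B C')).2) := by
  rw [diff_eq]
  simp only [wins]
  constructor
  · rintro ⟨x | x | x, h⟩
    · exact Or.inl ⟨x.1, x.2, h⟩
    · exact Or.inr (Or.inl ⟨x.1, x.2, h⟩)
    · exact Or.inr (Or.inr ⟨x.1, x.2, h⟩)
  · rintro (⟨Q, hQ, h⟩ | ⟨Q, hQ, h⟩ | ⟨Q, hQ, h⟩)
    · exact ⟨Sum.inl ⟨Q, hQ⟩, h⟩
    · exact ⟨Sum.inr (Sum.inl ⟨Q, hQ⟩), h⟩
    · exact ⟨Sum.inr (Sum.inr ⟨Q, hQ⟩), h⟩

theorem wins2_diff (A B C : Finset ℤ) : (wins (diff A B C)).2 ↔
    (∃ A', RightMove A A' ∧ ¬ (wins (diff A' B C)).1) ∨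
    (∃ B', LeftMove B B' ∧ ¬ (wins (diff A B' C)).1) ∨
    (∃ C', LeftMove C C' ∧ ¬ (wins (diff A B C')).1) := by
  rw [diff_eq]
  simp only [wins]
  constructor
  · rintro ⟨x | x | x, h⟩
    · exact Or.inl ⟨x.1, x.2, h⟩
    · exact Or.inr (Or.inl ⟨x.1, x.2, h⟩)
    · exact Or.inr (Or.inr ⟨x.1, x.2, h⟩)
  · rintro (⟨Q, hQ, h⟩ | ⟨Q, hQ, h⟩ | ⟨Q, hQ, h⟩)
    · exact ⟨Sum.inl ⟨Q, hQ⟩, h⟩
    · exact ⟨Sum.inr (Sum.inl ⟨Q, hQ⟩), h⟩
    · exact ⟨Sum.inr (Sum.inr ⟨Q, hQ⟩), h⟩

/-! ## Codes of positions -/

/-- the position with the code `m` -/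
def dec (m : ℕ) : Finset ℤ :=
  ((Finset.range (m + 1)).filter (fun i => m.testBit i = true)).image (fun i : ℕ => (i : ℤ) - 8)

theorem mem_dec {m : ℕ} {x : ℤ} : x ∈ dec m ↔ ∃ i : ℕ, m.testBit i = true ∧ x = (i : ℤ) - 8 := by
  unfold dec
  simp only [Finset.mem_image, Finset.mem_filter, Finset.mem_range]
  constructor
  · rintro ⟨i, ⟨_, h⟩, rfl⟩
    exact ⟨i, h, rfl⟩
  · rintro ⟨i, h, rfl⟩
    refine ⟨i, ⟨?_, h⟩, rfl⟩
    have h1 := Nat.ge_two_pow_of_testBit h
    have h2 := Nat.lt_two_pow_self (n := i)
    omega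

theorem mem_dec' {m i : ℕ} : ((i : ℤ) - 8) ∈ dec m ↔ m.testBit i = true := by
  rw [mem_dec]
  constructor
  · rintro ⟨j, h, e⟩
    have : i = j := by omega
    rwa [this]
  · exact fun h => ⟨i, h, rfl⟩

theorem dec_ext {m : ℕ} (n : ℕ) {S : Finset ℤ} (hm : m < 2 ^ n)
    (h : ∀ i < n, (m.testBit i = true ↔ (i : ℤ) - 8 ∈ S))
    (hS : ∀ x ∈ S, -8 ≤ x ∧ x < (n : ℤ) - 8) : dec m = S := by
  ext x
  rw [mem_dec]
  constructor
  · rintro ⟨i, h1, rfl⟩
    have h2 := Nat.ge_two_pow_of_testBit h1
    have h3 : i < n := by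
      by_contra h4
      have := Nat.pow_le_pow_right (show 0 < 2 by norm_num) (not_lt.1 h4)
      omega
    exact (h i h3).1 h1
  · intro h1
    obtain ⟨h2, h3⟩ := hS x h1
    refine ⟨(x + 8).toNat, ?_, by omega⟩
    rw [h _ (by omega)]
    rwa [show (((x + 8).toNat : ℕ) : ℤ) - 8 = x by omega]

theorem bit7 (i j : ℕ) : (7 <<< i).testBit j = decide (i ≤ j ∧ j < i + 3) := by
  rw [Nat.testBit_shiftLeft]
  by_cases h : i ≤ j
  · obtain ⟨k, rfl⟩ : ∃ k, j = i + k := ⟨j - i, by omega⟩
    rw [show i + k - i = k by omega]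
    rcases k with _ | _ | _ | k
    · simp [Nat.testBit]
    · simp [Nat.testBit]
    · simp [Nat.testBit]
    · have : Nat.testBit 7 (k + 3) = false := by
        apply Nat.testBit_lt_two_pow
        calc 7 < 2 ^ 3 := by norm_num
          _ ≤ 2 ^ (k + 3) := Nat.pow_le_pow_right (by norm_num) (by omega)
      rw [this]
      simp
  · simp [h]

theorem after_up {m i : ℕ} (h1 : m.testBit i = true) (h2 : m.testBit (i + 1) = true)
    (h3 : m.testBit (i + 2) = false) : after (dec m) ((i : ℤ) - 8) 1 = dec (m ^^^ (7 <<< i)) := by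
  ext y
  simp only [after, Finset.mem_insert, Finset.mem_erase, mem_dec, Nat.testBit_xor, bit7]
  constructor
  · rintro (rfl | ⟨h4, h5, j, h6, rfl⟩)
    · refine ⟨i + 2, ?_, by push_cast; ring⟩
      rw [h3]
      simp
    · refine ⟨j, ?_, rfl⟩
      have e1 : j ≠ i := fun e => h5 (by rw [e])
      have e2 : j ≠ i + 1 := fun e => h4 (by rw [e]; push_cast; ring)
      have e3 : j ≠ i + 2 := fun e => by rw [e, h3] at h6; simp at h6
      rw [h6, decide_eq_false (by omega)]
      rfl
  · rintro ⟨j, h4, rfl⟩
    by_cases e : i ≤ j ∧ j < i + 3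
    · rw [decide_eq_true e] at h4
      have e1 : j ≠ i := fun e => by rw [e, h1] at h4; simp at h4
      have e2 : j ≠ i + 1 := fun e => by rw [e, h2] at h4; simp at h4
      left
      omega
    · rw [decide_eq_false e, Bool.xor_false] at h4
      right
      exact ⟨by omega, by omega, j, h4, rfl⟩

theorem after_down {m i : ℕ} (h1 : m.testBit (i + 2) = true) (h2 : m.testBit (i + 1) = true)
    (h3 : m.testBit i = false) :
    after (dec m) (((i + 2 : ℕ) : ℤ) - 8) (-1) = dec (m ^^^ (7 <<< i)) := by
  ext y
  simp only [after, Finset.mem_insert, Finset.mem_erase, mem_dec, Nat.testBit_xor, bit7]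
  constructor
  · rintro (rfl | ⟨h4, h5, j, h6, rfl⟩)
    · refine ⟨i, ?_, by push_cast; ring⟩
      rw [h3]
      simp
    · refine ⟨j, ?_, rfl⟩
      have e1 : j ≠ i + 2 := fun e => h5 (by rw [e])
      have e2 : j ≠ i + 1 := fun e => h4 (by rw [e]; push_cast; ring)
      have e3 : j ≠ i := fun e => by rw [e, h3] at h6; simp at h6
      rw [h6, decide_eq_false (by omega)]
      rfl
  · rintro ⟨j, h4, rfl⟩
    by_cases e : i ≤ j ∧ j < i + 3
    · rw [decide_eq_true e] at h4
      have e1 : j ≠ i + 2 := fun e => by rw [e, h1] at h4; simp at h4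
      have e2 : j ≠ i + 1 := fun e => by rw [e, h2] at h4; simp at h4
      left
      omega
    · rw [decide_eq_false e, Bool.xor_false] at h4
      right
      refine ⟨by push_cast; omega, by push_cast; omega, j, h4, rfl⟩

/-! ## Enumeration of moves -/

/-- test of `and` of three bits -/
def can (a b c : Bool) : Bool := match a, b, c with
  | true, true, false => true
  | _, _, _ => false

/-- run through the jumps to the right of the stone with index `i`, consuming a list of replies;
`none` means failure -/
def upc (P : ℕ → ℕ → Bool) : ℕ → ℕ → ℕ → List ℕ → Option (List ℕ)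
  | 0, _, _, _ => none
  | f + 1, m, i, s => match can (m.testBit i) (m.testBit (i + 1)) (m.testBit (i + 2)) with
    | false => some s
    | true => match s with
      | [] => none
      | r :: s' => match P (m ^^^ (7 <<< i)) r with
        | false => none
        | true => upc P f (m ^^^ (7 <<< i)) (i + 2) s'

/-- the same for the jumps to the left -/
def dnc (P : ℕ → ℕ → Bool) : ℕ → ℕ → ℕ → List ℕ → Option (List ℕ)
  | 0, _, _, _ => none
  | _ + 1, m, 0, s => match m.testBit 0 with
    | true => none
    | false => some s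
  | _ + 1, m, 1, s => match m.testBit 1 with
    | true => none
    | false => some s
  | f + 1, m, i + 2, s => match can (m.testBit (i + 2)) (m.testBit (i + 1)) (m.testBit i) with
    | false => some s
    | true => match s with
      | [] => none
      | r :: s' => match P (m ^^^ (7 <<< i)) r with
        | false => none
        | true => dnc P f (m ^^^ (7 <<< i)) i s'

theorem can_iff {a b c : Bool} : can a b c = true ↔ a = true ∧ b = true ∧ c = false := by
  cases a <;> cases b <;> cases c <;> simp [can]

theorem upc_sound {P : ℕ → ℕ → Bool} : ∀ (f m i : ℕ) (s t : List ℕ), upc P f m i s = some t →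
    ∀ T, Jumps 1 (dec m) ((i : ℤ) - 8) T → ∃ m' r, T = dec m' ∧ P m' r = true := by
  intro f
  induction f with
  | zero => intro m i s t h; simp [upc] at h
  | succ f ih =>
    intro m i s t h T hT
    have key : m.testBit i = true ∧ m.testBit (i + 1) = true ∧ m.testBit (i + 2) = false := by
      have aux : ((i : ℤ) - 8) ∈ dec m ∧ ((i : ℤ) - 8) + 1 ∈ dec m ∧
          ((i : ℤ) - 8) + 2 * 1 ∉ dec m := by
        cases hT with
        | last h1 h2 h3 => exact ⟨h1, h2, h3⟩
        | more h1 h2 h3 _ => exact ⟨h1, h2, h3⟩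
      obtain ⟨h1, h2, h3⟩ := aux
      rw [mem_dec'] at h1
      rw [show ((i : ℤ) - 8) + 1 = ((i + 1 : ℕ) : ℤ) - 8 by push_cast; ring, mem_dec'] at h2
      rw [show ((i : ℤ) - 8) + 2 * 1 = ((i + 2 : ℕ) : ℤ) - 8 by push_cast; ring, mem_dec'] at h3
      exact ⟨h1, h2, by simpa using h3⟩
    have hc := can_iff.2 key
    simp only [upc, hc] at h
    cases s with
    | nil => simp at h
    | cons r s' =>
      simp only at h
      split at h
      · simp at h
      · rename_i hP
        have e := after_up key.1 key.2.1 key.2.2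
        cases hT with
        | last h1 h2 h3 => exact ⟨_, r, e, hP⟩
        | more h1 h2 h3 h4 =>
          rw [e, show ((i : ℤ) - 8) + 2 * 1 = ((i + 2 : ℕ) : ℤ) - 8 by push_cast; ring] at h4
          exact ih _ _ _ _ h T h4

theorem dnc_sound {P : ℕ → ℕ → Bool} : ∀ (f m i : ℕ) (s t : List ℕ), dnc P f m i s = some t →
    ∀ T, Jumps (-1) (dec m) ((i : ℤ) - 8) T → ∃ m' r, T = dec m' ∧ P m' r = true := by
  intro f
  induction f with
  | zero => intro m i s t h; simp [dnc] at h
  | succ f ih =>
    intro m i s t h T hT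
    have aux : ((i : ℤ) - 8) ∈ dec m ∧ ((i : ℤ) - 8) + (-1) ∈ dec m ∧
        ((i : ℤ) - 8) + 2 * (-1) ∉ dec m := by
      cases hT with
      | last h1 h2 h3 => exact ⟨h1, h2, h3⟩
      | more h1 h2 h3 _ => exact ⟨h1, h2, h3⟩
    obtain ⟨h1, h2, h3⟩ := aux
    rw [mem_dec'] at h1
    rcases i with _ | _ | i
    · simp [dnc, h1] at h
    · simp only [Nat.zero_add] at h1 h
      simp [dnc, h1] at h
    · rw [show (((i + 1 + 1 : ℕ) : ℤ) - 8) + (-1) = ((i + 1 : ℕ) : ℤ) - 8 by push_cast; ring,
        mem_dec'] at h2
      rw [show (((i + 1 + 1 : ℕ) : ℤ) - 8) + 2 * (-1) = ((i : ℕ) : ℤ) - 8 by push_cast; ring,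
        mem_dec'] at h3
      have key : m.testBit (i + 2) = true ∧ m.testBit (i + 1) = true ∧ m.testBit i = false :=
        ⟨h1, h2, by simpa using h3⟩
      have hc := can_iff.2 key
      simp only [dnc, hc] at h
      cases s with
      | nil => simp at h
      | cons r s' =>
        simp only at h
        split at h
        · simp at h
        · rename_i hP
          have e := after_down key.1 key.2.1 key.2.2
          cases hT with
          | last _ _ _ => exact ⟨_, r, e, hP⟩
          | more _ _ _ h4 =>
            rw [show (((i + 1 + 1 : ℕ) : ℤ) - 8) = (((i + 2 : ℕ) : ℤ) - 8) by rfl, e,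
              show (((i + 2 : ℕ) : ℤ) - 8) + 2 * (-1) = ((i : ℕ) : ℤ) - 8 by push_cast; ring] at h4
            exact ih _ _ _ _ h T h4

/-- run through all the moves of the stones with an index of parity `p`, the index running from
`i` upwards for `n` steps of length two -/
def mvs (P : ℕ → ℕ → Bool) (m : ℕ) : ℕ → ℕ → List ℕ → Option (List ℕ)
  | 0, i, s => match Nat.ble (2 ^ i) m with
    | true => none
    | false => some s
  | n + 1, i, s => match upc P 9 m i s with
    | none => none
    | some s' => match dnc P 9 m i s' with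
      | none => none
      | some s'' => mvs P m n (i + 2) s''

theorem mvs_sound {P : ℕ → ℕ → Bool} {m : ℕ} : ∀ (n i : ℕ) (s t : List ℕ),
    mvs P m n i s = some t → ∀ (j : ℕ) (d : ℤ) (T : Finset ℤ), i ≤ j → j % 2 = i % 2 →
    (d = 1 ∨ d = -1) → Jumps d (dec m) ((j : ℤ) - 8) T → ∃ m' r, T = dec m' ∧ P m' r = true := by
  intro n
  induction n with
  | zero =>
    intro i s t h j d T hij _ _ hT
    have h1 : m.testBit j = true := by
      rw [← mem_dec']
      cases hT with
      | last h1 _ _ => exact h1
      | more h1 _ _ _ => exact h1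
    have h2 := Nat.ge_two_pow_of_testBit h1
    have h3 : 2 ^ i ≤ 2 ^ j := Nat.pow_le_pow_right (by norm_num) hij
    simp only [mvs] at h
    rw [Nat.ble_eq_true_of_le (h3.trans h2)] at h
    simp at h
  | succ n ih =>
    intro i s t h j d T hij hp hd hT
    simp only [mvs] at h
    split at h
    · simp at h
    · rename_i s' hs'
      split at h
      · simp at h
      · rename_i s'' hs''
        by_cases e : j = i
        · subst e
          rcases hd with rfl | rfl
          · exact upc_sound _ _ _ _ _ hs' T hT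
          · exact dnc_sound _ _ _ _ _ hs'' T hT
        · exact ih _ _ _ h j d T (by omega) (by omega) hd hT

/-- all the moves from the position with the code `m` of the stones of parity `p` -/
def allM (P : ℕ → ℕ → Bool) (p m : ℕ) (s : List ℕ) : Option (List ℕ) := mvs P m 20 p s

theorem allM_sound {P : ℕ → ℕ → Bool} {m p : ℕ} {s t : List ℕ} (hp : p < 2)
    (h : allM P p m s = some t) {T : Finset ℤ} (hT : Move p (dec m) T) :
    ∃ m' r, T = dec m' ∧ P m' r = true := by
  obtain ⟨x, d, hx, hd, hT⟩ := hT
  have h1 : x ∈ dec m := by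
    cases hT with
    | last h1 _ _ => exact h1
    | more h1 _ _ _ => exact h1
  obtain ⟨j, _, rfl⟩ := mem_dec.1 h1
  exact mvs_sound _ _ _ _ h j d T (by omega) (by omega) hd hT

/-! ## Replies -/

/-- is `t` reached from `m` by jumps to the right of the stone with index `i` -/
def upe : ℕ → ℕ → ℕ → ℕ → Bool
  | 0, _, _, _ => false
  | f + 1, m, i, t => match can (m.testBit i) (m.testBit (i + 1)) (m.testBit (i + 2)) with
    | false => false
    | true => match Nat.beq (m ^^^ (7 <<< i)) t with
      | true => true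
      | false => upe f (m ^^^ (7 <<< i)) (i + 2) t

/-- the same to the left -/
def dne : ℕ → ℕ → ℕ → ℕ → Bool
  | f + 1, m, i + 2, t => match can (m.testBit (i + 2)) (m.testBit (i + 1)) (m.testBit i) with
    | false => false
    | true => match Nat.beq (m ^^^ (7 <<< i)) t with
      | true => true
      | false => dne f (m ^^^ (7 <<< i)) i t
  | _, _, _, _ => false

theorem upe_sound : ∀ (f m i t : ℕ), upe f m i t = true → Jumps 1 (dec m) ((i : ℤ) - 8) (dec t) := by
  intro f
  induction f with
  | zero => intro m i t h; simp [upe] at h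
  | succ f ih =>
    intro m i t h
    simp only [upe] at h
    split at h
    · simp at h
    · rename_i hc
      have key := can_iff.1 hc
      have e := after_up key.1 key.2.1 key.2.2
      have h1 : ((i : ℤ) - 8) ∈ dec m := mem_dec'.2 key.1
      have h2 : ((i : ℤ) - 8) + 1 ∈ dec m := by
        rw [show ((i : ℤ) - 8) + 1 = ((i + 1 : ℕ) : ℤ) - 8 by push_cast; ring]
        exact mem_dec'.2 key.2.1
      have h3 : ((i : ℤ) - 8) + 2 * 1 ∉ dec m := by
        rw [show ((i : ℤ) - 8) + 2 * 1 = ((i + 2 : ℕ) : ℤ) - 8 by push_cast; ring, mem_dec',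
          key.2.2]
        simp
      split at h
      · rename_i hb
        have hb' := Nat.eq_of_beq_eq_true hb
        rw [← hb', ← e]
        exact Jumps.last h1 h2 h3
      · refine Jumps.more h1 h2 h3 ?_
        rw [e, show ((i : ℤ) - 8) + 2 * 1 = ((i + 2 : ℕ) : ℤ) - 8 by push_cast; ring]
        exact ih _ _ _ h

theorem dne_sound : ∀ (f m i t : ℕ), dne f m i t = true →
    Jumps (-1) (dec m) ((i : ℤ) - 8) (dec t) := by
  intro f
  induction f with
  | zero => intro m i t h; simp [dne] at h
  | succ f ih =>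
    intro m i t h
    rcases i with _ | _ | i
    · simp [dne] at h
    · simp [dne] at h
    · simp only [dne] at h
      split at h
      · simp at h
      · rename_i hc
        have key := can_iff.1 hc
        have e := after_down key.1 key.2.1 key.2.2
        have h1 : (((i + 2 : ℕ) : ℤ) - 8) ∈ dec m := mem_dec'.2 key.1
        have h2 : (((i + 2 : ℕ) : ℤ) - 8) + (-1) ∈ dec m := by
          rw [show (((i + 2 : ℕ) : ℤ) - 8) + (-1) = ((i + 1 : ℕ) : ℤ) - 8 by push_cast; ring]
          exact mem_dec'.2 key.2.1
        have h3 : (((i + 2 : ℕ) : ℤ) - 8) + 2 * (-1) ∉ dec m := by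
          rw [show (((i + 2 : ℕ) : ℤ) - 8) + 2 * (-1) = ((i : ℕ) : ℤ) - 8 by push_cast; ring,
            mem_dec', key.2.2]
          simp
        split at h
        · rename_i hb
          have hb' := Nat.eq_of_beq_eq_true hb
          rw [← hb', ← e]
          exact Jumps.last h1 h2 h3
        · refine Jumps.more h1 h2 h3 ?_
          rw [e, show (((i + 2 : ℕ) : ℤ) - 8) + 2 * (-1) = ((i : ℕ) : ℤ) - 8 by push_cast; ring]
          exact ih _ _ _ h

/-- is `t` reached from `m` by a move of a stone with an index `≡ i` modulo 2, `≥ i` -/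
def anM (m t : ℕ) : ℕ → ℕ → Bool
  | 0, _ => false
  | n + 1, i => match upe 9 m i t with
    | true => true
    | false => match dne 9 m i t with
      | true => true
      | false => anM m t n (i + 2)

theorem anM_sound {m t p : ℕ} (hp : p < 2) : ∀ (n i : ℕ), i % 2 = p → anM m t n i = true →
    Move p (dec m) (dec t) := by
  intro n
  induction n with
  | zero => intro i _ h; simp [anM] at h
  | succ n ih =>
    intro i hi h
    simp only [anM] at h
    split at h
    · rename_i h1
      exact ⟨_, 1, by omega, Or.inl rfl, upe_sound _ _ _ _ h1⟩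
    · split at h
      · rename_i h1
        exact ⟨_, -1, by omega, Or.inr rfl, dne_sound _ _ _ _ h1⟩
      · exact ih (i + 2) (by omega) h

/-! ## Certificates -/

/-- a triple of positions -/
structure Tri where
  a : ℕ
  b : ℕ
  c : ℕ

/-- tables of triples with replies, indexed by binary digits -/
inductive Tb
  | z
  | l (t : Tri) (s : List ℕ)
  | n (x y : Tb)

/-- the triple with a given index -/
def Tb.get : Tb → ℕ → ℕ → Option Tri
  | .z, _, _ => none
  | .l t _, _, _ => some t
  | .n x y, k, j => match k with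
    | 0 => none
    | k + 1 => match Nat.testBit j k with
      | false => Tb.get x k j
      | true => Tb.get y k j

/-- the reply with index `r` of Right in the triple `(a, b, c)` -/
def okR (T : Tb) (k a b c r : ℕ) : Bool := match Tb.get T k r with
  | none => false
  | some t => match Nat.beq t.a a, Nat.beq t.b b, Nat.beq t.c c with
    | false, true, true => anM a t.a 20 1
    | true, false, true => anM b t.b 20 0
    | true, true, false => anM c t.c 20 0
    | _, _, _ => false

/-- check the entry: every move of Left has a reply in the table -/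
def okE (T : Tb) (k : ℕ) (t : Tri) (s : List ℕ) : Bool :=
  match allM (fun a' r => okR T k a' t.b t.c r) 0 t.a s with
  | none => false
  | some s' => match allM (fun b' r => okR T k t.a b' t.c r) 1 t.b s' with
    | none => false
    | some s'' => match allM (fun c' r => okR T k t.a t.b c' r) 1 t.c s'' with
      | none => false
      | some _ => true

/-- check all the entries of a table -/
def okT (T : Tb) (k : ℕ) : Tb → Bool
  | .z => true
  | .l t s => okE T k t s
  | .n x y => match okT T k x with
    | false => false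
    | true => okT T k y

/-- `t` occurs in the table -/
def Tb.Mem (t : Tri) (s : List ℕ) : Tb → Prop
  | .z => False
  | .l t' s' => t' = t ∧ s' = s
  | .n x y => Tb.Mem t s x ∨ Tb.Mem t s y

theorem get_mem {t : Tri} : ∀ (T : Tb) (k j : ℕ), Tb.get T k j = some t → ∃ s, Tb.Mem t s T := by
  intro T
  induction T with
  | z => intro k j h; simp [Tb.get] at h
  | l t' s' =>
    intro k j h
    simp only [Tb.get, Option.some.injEq] at h
    exact ⟨s', h, rfl⟩
  | n x y ihx ihy =>
    intro k j h
    cases k with
    | zero => simp [Tb.get] at h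
    | succ k =>
      simp only [Tb.get] at h
      split at h
      · obtain ⟨s, hs⟩ := ihx _ _ h
        exact ⟨s, Or.inl hs⟩
      · obtain ⟨s, hs⟩ := ihy _ _ h
        exact ⟨s, Or.inr hs⟩

theorem okT_mem {T : Tb} {k : ℕ} {t : Tri} {s : List ℕ} : ∀ (X : Tb), okT T k X = true →
    Tb.Mem t s X → okE T k t s = true := by
  intro X
  induction X with
  | z => intro _ h; exact h.elim
  | l t' s' => rintro h ⟨rfl, rfl⟩; exact h
  | n x y ihx ihy =>
    intro h hm
    simp only [okT] at h
    split at h
    · simp at h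
    · rename_i h1
      rcases hm with hm | hm
      · exact ihx h1 hm
      · exact ihy h hm

/-- the claim: Right, moving second, wins `A - (B + C)` -/
def RS (t : Tri) : Prop := ¬ (wins (diff (dec t.a) (dec t.b) (dec t.c))).1

/-- number of stones -/
def sz (t : Tri) : ℕ := (dec t.a).card + (dec t.b).card + (dec t.c).card

theorem okR_sound {T : Tb} {k a b c r : ℕ}
    (H : ∀ t s, Tb.Mem t s T → sz t < (dec a).card + (dec b).card + (dec c).card → RS t)
    (h : okR T k a b c r = true) : (wins (diff (dec a) (dec b) (dec c))).2 := by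
  unfold okR at h
  split at h
  · simp at h
  · rename_i t ht
    obtain ⟨s, hs⟩ := get_mem _ _ _ ht
    have H' := H t s hs
    rw [wins2_diff]
    obtain ⟨ta, tb, tc⟩ := t
    unfold RS sz at H'
    simp only at h H'
    split at h
    · rename_i h1 h2 h3
      have e2 := Nat.eq_of_beq_eq_true h2
      have e3 := Nat.eq_of_beq_eq_true h3
      subst e2 e3
      have hm : Move ((1 : ℕ) : ℤ) (dec a) (dec ta) := anM_sound (by norm_num) _ _ rfl h
      have hc := hm.card
      exact Or.inl ⟨_, hm, H' (by omega)⟩
    · rename_i h1 h2 h3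
      have e2 := Nat.eq_of_beq_eq_true h1
      have e3 := Nat.eq_of_beq_eq_true h3
      subst e2 e3
      have hm : Move ((0 : ℕ) : ℤ) (dec b) (dec tb) := anM_sound (by norm_num) _ _ rfl h
      have hc := hm.card
      exact Or.inr (Or.inl ⟨_, hm, H' (by omega)⟩)
    · rename_i h1 h2 h3
      have e2 := Nat.eq_of_beq_eq_true h1
      have e3 := Nat.eq_of_beq_eq_true h2
      subst e2 e3
      have hm : Move ((0 : ℕ) : ℤ) (dec c) (dec tc) := anM_sound (by norm_num) _ _ rfl h
      have hc := hm.card
      exact Or.inr (Or.inr ⟨_, hm, H' (by omega)⟩)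
    · simp at h

theorem rs_of_mem {T : Tb} {k : ℕ} (hT : okT T k T = true) : ∀ (n : ℕ) (t : Tri) (s : List ℕ),
    sz t < n → Tb.Mem t s T → RS t := by
  intro n
  induction n with
  | zero => intro t s h; omega
  | succ n ih =>
    intro t s hn ht
    have h := okT_mem T hT ht
    unfold okE at h
    obtain ⟨a, b, c⟩ := t
    simp only [sz] at hn
    simp only at h
    split at h
    · simp at h
    · rename_i s' h1
      split at h
      · simp at h
      · rename_i s'' h2
        split at h
        · simp at h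
        · rename_i s3 h3
          unfold RS
          simp only
          rw [wins1_diff]
          rintro (⟨A', hA, hw⟩ | ⟨B', hB, hw⟩ | ⟨C', hC, hw⟩)
          · obtain ⟨m', r, rfl, h4⟩ := allM_sound (p := 0) (by norm_num) h1 hA
            have hc := hA.card
            exact hw (okR_sound (fun t s hm hs => ih t s (by omega) hm) h4)
          · obtain ⟨m', r, rfl, h4⟩ := allM_sound (p := 1) (by norm_num) h2 hB
            have hc := hB.card
            exact hw (okR_sound (fun t s hm hs => ih t s (by omega) hm) h4)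
          · obtain ⟨m', r, rfl, h4⟩ := allM_sound (p := 1) (by norm_num) h3 hC
            have hc := hC.card
            exact hw (okR_sound (fun t s hm hs => ih t s (by omega) hm) h4)

/-- If the table is correct and `(a, b, c)` has a reply of Right in the table then Right, moving
first, wins `A - (B + C)`. -/
theorem right_wins {T : Tb} {k a b c r : ℕ} (hT : okT T k T = true)
    (h : okR T k a b c r = true) : (wins (diff (dec a) (dec b) (dec c))).2 :=
  okR_sound (fun t s hm _ => rs_of_mem hT (sz t + 1) t s (by omega) hm) h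

end Pool.Agent.Helper807.KO
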