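import Mathlib

/-!
# One-dimensional Konane: game forms, normal play, positions

Definitions used in the statement about the positions `S(k, m·, n)`.
-/

set_option autoImplicit false

namespace Pool.Agent.Helper807.KO

/-- A partizan game: `L a` are the options of Left, `R b` the options of Right. -/
inductive Gm : Type 1
  | mk (α β : Type) (L : α → Gm) (R : β → Gm) : Gm

namespace Gm

/-- The negative `-G`: the two players exchange their roles. -/
def neg : Gm → Gm
  | mk α β L R => mk β α (fun b => neg (R b)) (fun a => neg (L a))

/-- The disjunctive sum `G + H`: a move is a move in exactly one of the two components, that is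
`G + H = {G^L + H, G + H^L | G^R + H, G + H^R}`, see `add_mk`. -/
noncomputable def add (G : Gm) : Gm → Gm :=
  Gm.rec (motive := fun _ => Gm → Gm)
    (fun α β _ _ addL addR H =>
      Gm.rec (motive := fun _ => Gm)
        (fun γ δ L' R' gL gR =>
          mk (α ⊕ γ) (β ⊕ δ)
            (Sum.elim (fun a => addL a (mk γ δ L' R')) gL)
            (Sum.elim (fun b => addR b (mk γ δ L' R')) gR))
        H) G

/-- The recursion for the sum. -/
theorem add_mk (α β γ δ : Type) (L : α → Gm) (R : β → Gm) (L' : γ → Gm) (R' : δ → Gm) :
    add (mk α β L R) (mk γ δ L' R') = mk (α ⊕ γ) (β ⊕ δ)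
      (Sum.elim (fun a => add (L a) (mk γ δ L' R')) (fun c => add (mk α β L R) (L' c)))
      (Sum.elim (fun b => add (R b) (mk γ δ L' R')) (fun d => add (mk α β L R) (R' d))) := rfl

/-- Normal play (a player who cannot move loses). `(wins G).1`: Left, moving first, wins `G`;
`(wins G).2`: Right, moving first, wins `G`. -/
def wins : Gm → Prop × Prop
  | mk _ _ L R => (∃ a, ¬ (wins (L a)).2, ∃ b, ¬ (wins (R b)).1)

/-- `G` is a second-player win. -/
def SecondWins (G : Gm) : Prop := ¬ (wins G).1 ∧ ¬ (wins G).2

/-- Equality of values: `G = H` when `G - H` is a second-player win. -/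
def Eqv (G H : Gm) : Prop := SecondWins (add G (neg H))

end Gm

/-- The position after the stone in the cell `x` has jumped over the stone in the cell `x + d`
into the cell `x + 2 d`. A position is the finite set of the occupied cells; the stones in the odd
cells are white, those in the even cells are black. -/
def after (S : Finset ℤ) (x d : ℤ) : Finset ℤ := insert (x + 2 * d) ((S.erase x).erase (x + d))

/-- `Jumps d S x T`: one or more successive jumps in the direction `d` of the stone in the cell
`x` lead from the position `S` to the position `T`. (For `d = 1` or `d = -1` the stone in the cell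
`x + d` has the other colour, because the colours are those of a checkerboard.) -/
inductive Jumps (d : ℤ) : Finset ℤ → ℤ → Finset ℤ → Prop
  | last {S : Finset ℤ} {x : ℤ} (h1 : x ∈ S) (h2 : x + d ∈ S) (h3 : x + 2 * d ∉ S) :
      Jumps d S x (after S x d)
  | more {S T : Finset ℤ} {x : ℤ} (h1 : x ∈ S) (h2 : x + d ∈ S) (h3 : x + 2 * d ∉ S)
      (h : Jumps d (after S x d) (x + 2 * d) T) : Jumps d S x T

/-- A move of a stone in a cell of parity `p`. -/
def Move (p : ℤ) (S T : Finset ℤ) : Prop :=
  ∃ x d : ℤ, x % 2 = p ∧ (d = 1 ∨ d = -1) ∧ Jumps d S x T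

/-- The moves of Left, who plays the black stones (even cells). -/
def LeftMove (S T : Finset ℤ) : Prop := Move 0 S T

/-- The moves of Right, who plays the white stones (odd cells). -/
def RightMove (S T : Finset ℤ) : Prop := Move 1 S T

theorem card_after {S : Finset ℤ} {x d : ℤ} (hd : d ≠ 0) (h1 : x ∈ S) (h2 : x + d ∈ S) :
    (after S x d).card < S.card := by
  have h3 : x + d ∈ S.erase x := Finset.mem_erase.2 ⟨by omega, h2⟩
  have h4 := Finset.card_insert_le (x + 2 * d) ((S.erase x).erase (x + d))
  rw [Finset.card_erase_of_mem h3, Finset.card_erase_of_mem h1] at h4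
  have h5 : 0 < (S.erase x).card := Finset.card_pos.2 ⟨_, h3⟩
  rw [Finset.card_erase_of_mem h1] at h5
  unfold after
  omega

theorem Jumps.card {d : ℤ} (hd : d ≠ 0) {S T : Finset ℤ} {x : ℤ} (h : Jumps d S x T) :
    T.card < S.card := by
  induction h with
  | last h1 h2 h3 => exact card_after hd h1 h2
  | more h1 h2 h3 h ih => exact ih.trans (card_after hd h1 h2)

theorem Move.card {p : ℤ} {S T : Finset ℤ} (h : Move p S T) : T.card < S.card := by
  obtain ⟨x, d, _, hd, h⟩ := h
  exact h.card (by rcases hd with rfl | rfl <;> decide)

/-- The game of a position: the options are the positions after one move. -/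
noncomputable def value (S : Finset ℤ) : Gm :=
  Gm.mk {T : Finset ℤ // LeftMove S T} {T : Finset ℤ // RightMove S T}
    (fun T => value T.1) (fun T => value T.1)
termination_by S.card
decreasing_by
  · exact Move.card T.2
  · exact Move.card T.2

/-- The first two runs of `S(k, m·, n)`: the position `S(k, m)`. Cell 1 is the leftmost stone. -/
noncomputable def left (k m : ℤ) : Finset ℤ := Finset.Icc 1 k ∪ Finset.Icc (k + 2) (k + m + 1)

/-- The third run of `S(k, m·, n)`, with the colours it has in the position. -/
noncomputable def right (k m n : ℤ) : Finset ℤ := Finset.Icc (k + m + 4) (k + m + n + 3)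

end Pool.Agent.Helper807.KO
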